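import Pool.Agent.Helper63.P705.NR.Goals
import Pool.Agent.Helper53.PT.A

/-!
# MP_705522_gt, region near p = 2: packet GO2 (upper bounds of GG)
-/

namespace Pool.Agent.Helper67.NR

open MeasureTheory Set Filter Topology
open Pool.Agent.Helper53.PT Pool.Agent.Helper63.P705.NR

/-- Comparison: if `P' ≤ Q'` on `(0,∞)` and `P 0 = Q 0` then `P ≤ Q` on `[0,∞)`. -/
theorem le_of_deriv {P Q P' Q' : ℝ → ℝ} (hP : ∀ w, HasDerivAt P (P' w) w)
    (hQ : ∀ w, HasDerivAt Q (Q' w) w) (h0 : P 0 = Q 0) (h : ∀ w, 0 < w → P' w ≤ Q' w) (u : ℝ)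
    (hu : 0 ≤ u) : P u ≤ Q u := by
  have hd : ∀ w, HasDerivAt (fun w => Q w - P w) (Q' w - P' w) w := fun w => (hQ w).sub (hP w)
  have hm : MonotoneOn (fun w => Q w - P w) (Ici 0) := by
    apply monotoneOn_of_deriv_nonneg (convex_Ici 0)
    · exact fun w _ => (hd w).continuousAt.continuousWithinAt
    · exact fun w _ => (hd w).differentiableAt.differentiableWithinAt
    · intro w hw
      rw [interior_Ici] at hw
      rw [(hd w).deriv]
      have := h w hw
      linarith
  have h1 := hm (mem_Ici.2 le_rfl) (mem_Ici.2 hu) hu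
  simp only at h1
  linarith

theorem continuous_EE : Continuous EE := by
  have hc : Continuous (fun y : ℝ => Real.exp (-(y ^ 2) / 2)) := by fun_prop
  rw [continuous_iff_continuousAt]
  intro w
  exact (intervalIntegral.integral_hasDerivAt_right (hc.intervalIntegrable _ _)
    (hc.stronglyMeasurableAtFilter _ _) hc.continuousAt).continuousAt

theorem hasDerivAt_int {f : ℝ → ℝ} (hf : Continuous f) (u : ℝ) :
    HasDerivAt (fun u => ∫ w in (0 : ℝ)..u, f w) (f u) u :=
  intervalIntegral.integral_hasDerivAt_right (hf.intervalIntegrable _ _)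
    (hf.stronglyMeasurableAtFilter _ _) hf.continuousAt

/-- `∫_0^1 e^(-τ²u²/2) dτ = EE(u)/u`. -/
theorem int_exp (u : ℝ) (hu : 0 < u) :
    ∫ τ in (0 : ℝ)..1, Real.exp (-((τ * u) ^ 2) / 2) = EE u / u := by
  have h := intervalIntegral.integral_comp_mul_right (a := 0) (b := 1)
    (fun y : ℝ => Real.exp (-(y ^ 2) / 2)) (c := u) hu.ne'
  simp only [zero_mul, one_mul, smul_eq_mul] at h
  rw [h, EE, div_eq_inv_mul]

/-- `GR` (hypothesis of `GO2`) needs `GF`, which is therefore a hypothesis here. -/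
theorem gO2 (hF : GF) : GO2 := by
  intro hD hM hC hN hR hE hO θ h0 h1 u hu
  have hθ0 : 0 < θ := by linarith
  obtain ⟨hO1, hO2, hO3⟩ := hO θ h0 h1
  obtain ⟨hE1, hE2, hE3, hE4⟩ := hE
  obtain ⟨hN1, hN2, hN3, hN4, hN5, -⟩ := hN hD hM hC θ h0 h1
  have hde : de θ ≤ 0.02 := by unfold de; linarith
  -- the error term
  have herr1 : ∀ w, 0 < w → |∫ y in Ioi (0 : ℝ), nf θ y * Real.sin (w * y)| ≤ 0.188 * w := by
    intro w hw
    have h2 : ‖∫ y in Ioi (0 : ℝ), nf θ y * Real.sin (w * y)‖ ≤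
        ∫ y in Ioi (0 : ℝ), w * (y * nf θ y) := by
      apply norm_integral_le_of_norm_le (hN3.const_mul w)
      rw [ae_restrict_iff' measurableSet_Ioi]
      refine ae_of_all _ fun y hy => ?_
      have hy' : 0 < y := hy
      have h3 := hN1 y hy'
      rw [norm_mul, Real.norm_of_nonneg h3, Real.norm_eq_abs]
      have h4 : |Real.sin (w * y)| ≤ w * y := by
        have := Real.abs_sin_le_abs (x := w * y)
        rwa [abs_of_nonneg (mul_nonneg hw.le hy'.le)] at this
      calc nf θ y * |Real.sin (w * y)| ≤ nf θ y * (w * y) := by gcongr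
        _ = w * (y * nf θ y) := by ring
    rw [integral_const_mul, Real.norm_eq_abs] at h2
    refine h2.trans ?_
    have h5 : ∫ y in Ioi (0 : ℝ), y * nf θ y ≤ 0.188 := by
      refine hN5.trans ?_
      linarith
    rw [mul_comm]
    gcongr
  have herr2 : ∀ w, 0 < w → |∫ y in Ioi (0 : ℝ), nf θ y * Real.sin (w * y)| ≤ 0.092 := by
    intro w hw
    have h2 : ‖∫ y in Ioi (0 : ℝ), nf θ y * Real.sin (w * y)‖ ≤ ∫ y in Ioi (0 : ℝ), nf θ y := by
      apply norm_integral_le_of_norm_le hN2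
      rw [ae_restrict_iff' measurableSet_Ioi]
      refine ae_of_all _ fun y hy => ?_
      have hy' : 0 < y := hy
      have h3 := hN1 y hy'
      rw [norm_mul, Real.norm_of_nonneg h3, Real.norm_eq_abs]
      calc nf θ y * |Real.sin (w * y)| ≤ nf θ y * 1 := by
            gcongr
            exact Real.abs_sin_le_one _
        _ = nf θ y := mul_one _
    rw [Real.norm_eq_abs] at h2
    refine h2.trans (hN4.trans ?_)
    linarith
  -- the bound of `w RR(w²)`
  have hRR : ∀ w, 0 < w → w * RR θ (w ^ 2) ≤ 1 / θ * EE w +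
      |∫ y in Ioi (0 : ℝ), nf θ y * Real.sin (w * y)| := by
    intro w hw
    obtain ⟨-, hr1, hr2⟩ := hR hD hM hF θ h0 h1 w hw
    rw [hr1, hr2]
    have h6 : ∫ τ in (0 : ℝ)..1, f0 θ ((τ * w) ^ 2) ≤ EE w / w := by
      rw [← int_exp w hw]
      apply intervalIntegral.integral_mono_on zero_le_one
      · apply Continuous.intervalIntegrable
        exact (continuous_f0 (by linarith) h1).comp (by fun_prop)
      · apply Continuous.intervalIntegrable
        fun_prop
      · intro τ _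
        exact hO3 _ (sq_nonneg _)
    have h7 : w / θ * ∫ τ in (0 : ℝ)..1, f0 θ ((τ * w) ^ 2) ≤ w / θ * (EE w / w) := by
      gcongr
    have h8 : w / θ * (EE w / w) = 1 / θ * EE w := by
      field_simp
    have h9 := neg_abs_le (∫ y in Ioi (0 : ℝ), nf θ y * Real.sin (w * y))
    linarith
  -- the function `P w = GG(w²) e^(w²/2)`
  have hP : ∀ w : ℝ, HasDerivAt (fun w : ℝ => GG θ (w ^ 2) * Real.exp (w ^ 2 / 2))
      (w * RR θ (w ^ 2) * Real.exp (w ^ 2 / 2)) w := by
    intro w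
    have h2 : HasDerivAt (fun w : ℝ => w ^ 2) (2 * w) w := by
      simpa using hasDerivAt_pow 2 w
    have h3 := (hO1 (w ^ 2)).comp w h2
    refine h3.congr_deriv ?_
    ring
  have hcE : Continuous (fun w : ℝ => Real.exp (w ^ 2 / 2) * EE w) :=
    (by fun_prop : Continuous (fun w : ℝ => Real.exp (w ^ 2 / 2))).mul continuous_EE
  have hce : Continuous (fun w : ℝ => Real.exp (w ^ 2 / 2)) := by fun_prop
  have hP0 : GG θ ((0 : ℝ) ^ 2) * Real.exp ((0 : ℝ) ^ 2 / 2) = 0 := by
    rw [zero_pow two_ne_zero, hO2, zero_mul]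
  have hθ1 : 1 / θ ≤ 1 / 0.49 := one_div_le_one_div_of_le (by norm_num) h0
  have hpos : 0 < Real.exp (u ^ 2 / 2) := Real.exp_pos _
  -- nonnegativity
  have hI3 := hE3 u hu
  have hI4 := hE4 u hu
  have hI2 := hE2 u hu
  have hEEnn : ∀ w, 0 ≤ w → 0 ≤ EE w := fun w hw =>
    intervalIntegral.integral_nonneg hw fun y _ => (Real.exp_pos _).le
  have hInn : 0 ≤ ∫ w in (0 : ℝ)..u, Real.exp (w ^ 2 / 2) * EE w :=
    intervalIntegral.integral_nonneg hu fun y hy =>
      mul_nonneg (Real.exp_pos _).le (hEEnn y hy.1)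
  constructor
  · -- first bound
    have hQ : ∀ w : ℝ, HasDerivAt (fun w : ℝ => 1 / θ * (∫ x in (0 : ℝ)..w,
        Real.exp (x ^ 2 / 2) * EE x) + 0.188 * (Real.exp (w ^ 2 / 2) - 1))
        (1 / θ * (Real.exp (w ^ 2 / 2) * EE w) + 0.188 * (w * Real.exp (w ^ 2 / 2))) w := by
      intro w
      have h2 : HasDerivAt (fun w : ℝ => w ^ 2 / 2) w w := by
        have := (hasDerivAt_pow 2 w).div_const 2
        refine this.congr_deriv ?_
        simp
      have h3 := ((hasDerivAt_int hcE w).const_mul (1 / θ)).add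
        ((h2.exp.sub_const 1).const_mul (0.188 : ℝ))
      refine h3.congr_deriv ?_
      ring
    have h4 := le_of_deriv hP hQ (by
      simp only [hP0]
      simp) (by
        intro w hw
        have h5 := hRR w hw
        have h6 := herr1 w hw
        have h7 : w * RR θ (w ^ 2) ≤ 1 / θ * EE w + 0.188 * w := by linarith
        calc w * RR θ (w ^ 2) * Real.exp (w ^ 2 / 2) ≤
            (1 / θ * EE w + 0.188 * w) * Real.exp (w ^ 2 / 2) := by gcongr
          _ = _ := by ring) u hu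
    have h8 : 1 / θ * ∫ x in (0 : ℝ)..u, Real.exp (x ^ 2 / 2) * EE x ≤
        1 / 0.49 * ∫ x in (0 : ℝ)..u, Real.exp (x ^ 2 / 2) * EE x := by gcongr
    have h9 : GG θ (u ^ 2) * Real.exp (u ^ 2 / 2) ≤ 1.6 * Real.exp (u ^ 2 / 2) := by
      nlinarith
    exact le_of_mul_le_mul_right h9 hpos
  · -- second bound
    have hQ : ∀ w : ℝ, HasDerivAt (fun w : ℝ => 1 / θ * (∫ x in (0 : ℝ)..w,
        Real.exp (x ^ 2 / 2) * EE x) + 0.092 * (∫ x in (0 : ℝ)..w, Real.exp (x ^ 2 / 2)))
        (1 / θ * (Real.exp (w ^ 2 / 2) * EE w) + 0.092 * Real.exp (w ^ 2 / 2)) w := by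
      intro w
      exact ((hasDerivAt_int hcE w).const_mul (1 / θ)).add
        ((hasDerivAt_int hce w).const_mul (0.092 : ℝ))
    have h4 := le_of_deriv hP hQ (by
      simp only [hP0]
      simp) (by
        intro w hw
        have h5 := hRR w hw
        have h6 := herr2 w hw
        have h7 : w * RR θ (w ^ 2) ≤ 1 / θ * EE w + 0.092 := by linarith
        calc w * RR θ (w ^ 2) * Real.exp (w ^ 2 / 2) ≤
            (1 / θ * EE w + 0.092) * Real.exp (w ^ 2 / 2) := by gcongr
          _ = _ := by ring) u hu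
    have h8 : 1 / θ * ∫ x in (0 : ℝ)..u, Real.exp (x ^ 2 / 2) * EE x ≤
        1 / 0.49 * ∫ x in (0 : ℝ)..u, Real.exp (x ^ 2 / 2) * EE x := by gcongr
    have h9 : u * (GG θ (u ^ 2) * Real.exp (u ^ 2 / 2)) ≤ 3.32 * Real.exp (u ^ 2 / 2) := by
      calc u * (GG θ (u ^ 2) * Real.exp (u ^ 2 / 2)) ≤ u * (1 / 0.49 * (∫ x in (0 : ℝ)..u,
            Real.exp (x ^ 2 / 2) * EE x) + 0.092 * ∫ x in (0 : ℝ)..u, Real.exp (x ^ 2 / 2)) := by
            gcongr
            linarith
        _ = (1 / 0.98) * (u * (2 * ∫ x in (0 : ℝ)..u, Real.exp (x ^ 2 / 2) * EE x)) +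
            0.092 * (u * ∫ x in (0 : ℝ)..u, Real.exp (x ^ 2 / 2)) := by ring
        _ ≤ (1 / 0.98) * (3.12 * Real.exp (u ^ 2 / 2)) + 0.092 * (1.45 * Real.exp (u ^ 2 / 2)) := by
            gcongr
        _ ≤ 3.32 * Real.exp (u ^ 2 / 2) := by nlinarith
    have h10 : (u * GG θ (u ^ 2)) * Real.exp (u ^ 2 / 2) ≤ 3.32 * Real.exp (u ^ 2 / 2) := by
      linarith
    exact le_of_mul_le_mul_right h10 hpos

end Pool.Agent.Helper67.NR
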